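import Pool.Agent.Y703.CT.StmA

/-!
# Project CT, task CT-PER: the real period of `y² + D y = x³`

`∫_{4x³ + D² > 0} 2 dx / √(4x³ + D²)`: the part `x > 0` is a multiple of `B(1/6, 1/3)`
(substitute `s = D² / (D² + 4 x³)`), the part `x < 0` is the same multiple of `B(1/2, 1/3)`
(substitute `s = (D² + 4 x³) / D²`).
-/

set_option autoImplicit false

open Set MeasureTheory

namespace Pool.Agent.Y333.CT

/-- the beta integrand -/
noncomputable def bt (u v x : ℝ) : ℝ := x ^ (u - 1) * (1 - x) ^ (v - 1)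

theorem bt_int {u v : ℝ} (hu : 0 < u) (hv : 0 < v) : IntegrableOn (bt u v) (Ioo 0 1) ∧
    ∫ x in Ioo (0 : ℝ) 1, bt u v x = Real.Gamma u * Real.Gamma v / Real.Gamma (u + v) := by
  have e : ∀ x ∈ Ioo (0 : ℝ) 1, (x : ℂ) ^ ((u : ℂ) - 1) * (1 - (x : ℂ)) ^ ((v : ℂ) - 1) =
      ((bt u v x : ℝ) : ℂ) := by
    intro x hx
    unfold bt
    rw [Complex.ofReal_mul, Complex.ofReal_cpow hx.1.le, Complex.ofReal_cpow (by linarith [hx.2])]
    push_cast
    rfl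
  constructor
  · have h1 := Complex.betaIntegral_convergent (u := (u : ℂ)) (v := (v : ℂ)) (by simpa using hu)
      (by simpa using hv)
    rw [intervalIntegrable_iff_integrableOn_Ioo_of_le zero_le_one] at h1
    have h2 : IntegrableOn (fun x : ℝ => ((bt u v x : ℝ) : ℂ)) (Ioo 0 1) :=
      h1.congr_fun e measurableSet_Ioo
    exact h2.re
  · have h3 := Complex.Gamma_mul_Gamma_eq_betaIntegral (s := (u : ℂ)) (t := (v : ℂ))
      (by simpa using hu) (by simpa using hv)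
    have h4 : Complex.betaIntegral u v = ((∫ x in Ioo (0 : ℝ) 1, bt u v x : ℝ) : ℂ) := by
      unfold Complex.betaIntegral
      rw [intervalIntegral.integral_of_le zero_le_one, integral_Ioc_eq_integral_Ioo,
        ← integral_complex_ofReal]
      exact setIntegral_congr_fun measurableSet_Ioo e
    rw [h4, ← Complex.ofReal_add, Complex.Gamma_ofReal, Complex.Gamma_ofReal,
      Complex.Gamma_ofReal] at h3
    have h5 : Real.Gamma u * Real.Gamma v =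
        Real.Gamma (u + v) * ∫ x in Ioo (0 : ℝ) 1, bt u v x := by exact_mod_cast h3
    rw [h5, mul_div_cancel_left₀ _ (Real.Gamma_pos_of_pos (by positivity)).ne']

theorem chg {S : Set ℝ} (hS : MeasurableSet S) {f f' w : ℝ → ℝ} {u v k : ℝ} (hk : 0 < k)
    (hu : 0 < u) (hv : 0 < v) (hd : ∀ x ∈ S, HasDerivWithinAt f (f' x) S x) (hi : InjOn f S)
    (him : f '' S = Ioo 0 1) (hw : ∀ x ∈ S, |f' x| * bt u v (f x) = k * w x) :
    IntegrableOn w S ∧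
      ∫ x in S, w x = (Real.Gamma u * Real.Gamma v / Real.Gamma (u + v)) / k := by
  obtain ⟨h1, h2⟩ := bt_int hu hv
  rw [← him] at h1 h2
  rw [integrableOn_image_iff_integrableOn_abs_deriv_smul hS hd hi] at h1
  rw [integral_image_eq_integral_abs_deriv_smul hS hd hi] at h2
  have h3 : IntegrableOn (fun x => k * w x) S := h1.congr_fun (fun x hx => hw x hx) hS
  have h4 : ∫ x in S, k * w x = Real.Gamma u * Real.Gamma v / Real.Gamma (u + v) := by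
    rw [← h2]
    exact setIntegral_congr_fun hS fun x hx => (hw x hx).symm
  constructor
  · have h5 : IntegrableOn (fun x => k⁻¹ * (k * w x)) S := h3.const_mul k⁻¹
    refine h5.congr_fun (fun x _ => ?_) hS
    show k⁻¹ * (k * w x) = w x
    rw [← mul_assoc, inv_mul_cancel₀ hk.ne', one_mul]
  · rw [integral_const_mul] at h4
    rw [← h4, mul_div_cancel_left₀ _ hk.ne']

theorem rp {s : ℝ} (hs : 0 < s) (n : ℕ) (y : ℝ) (m : ℤ) (h : y * n = m) :
    (s ^ y) ^ n = s ^ m := by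
  rw [← Real.rpow_natCast, ← Real.rpow_mul hs.le, h, Real.rpow_intCast]

theorem sqrt6 {Q : ℝ} (hQ : 0 < Q) : (√Q) ^ 6 = Q ^ 3 := by
  have : (√Q) ^ 6 = ((√Q) ^ 2) ^ 3 := by ring
  rw [this, Real.sq_sqrt hQ.le]

/-- the constant -/
noncomputable def kk (c : ℝ) : ℝ := 6 * c ^ (1 / 3 : ℝ) / 4 ^ (2 / 3 : ℝ)

theorem kk_pos {c : ℝ} (hc : 0 < c) : 0 < kk c := by
  unfold kk
  positivity

theorem kk6 {c : ℝ} (hc : 0 < c) : kk c ^ 6 = 6 ^ 6 * c ^ 2 / 4 ^ 4 := by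
  have h1 := rp hc 6 (1 / 3) 2 (by norm_num)
  have h2 := rp (by norm_num : (0 : ℝ) < 4) 6 (2 / 3) 4 (by norm_num)
  unfold kk
  rw [div_pow, mul_pow, h1, h2]
  norm_num

theorem keyA {c x : ℝ} (hc : 0 < c) (hx : 0 < x) :
    |(-(12 * c ^ 2 * x ^ 2) / (4 * x ^ 3 + c ^ 2) ^ 2)| *
      bt (1 / 6) (1 / 3) (c ^ 2 / (4 * x ^ 3 + c ^ 2)) = kk c * (2 / √(4 * x ^ 3 + c ^ 2)) := by
  have hQ : 0 < 4 * x ^ 3 + c ^ 2 := by positivity
  have e1 : 1 - c ^ 2 / (4 * x ^ 3 + c ^ 2) = 4 * x ^ 3 / (4 * x ^ 3 + c ^ 2) := by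
    field_simp
    ring
  have hs : 0 < c ^ 2 / (4 * x ^ 3 + c ^ 2) := by positivity
  have hs1 : 0 < 4 * x ^ 3 / (4 * x ^ 3 + c ^ 2) := by positivity
  have hk := kk_pos hc
  have e2 : |(-(12 * c ^ 2 * x ^ 2) / (4 * x ^ 3 + c ^ 2) ^ 2)| =
      12 * c ^ 2 * x ^ 2 / (4 * x ^ 3 + c ^ 2) ^ 2 := by
    rw [neg_div, abs_neg, abs_of_pos (by positivity)]
  unfold bt
  rw [e1, e2]
  refine (pow_left_inj₀ (by positivity) (by positivity) (by norm_num : (6 : ℕ) ≠ 0)).1 ?_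
  rw [mul_pow, mul_pow, rp hs 6 _ (-5) (by norm_num), rp hs1 6 _ (-4) (by norm_num), mul_pow,
    kk6 hc, div_pow 2, sqrt6 hQ]
  have z1 : ∀ z : ℝ, z ^ (-5 : ℤ) = (z ^ 5)⁻¹ := fun z => by
    rw [show (-5 : ℤ) = -((5 : ℕ) : ℤ) by norm_num, zpow_neg, zpow_natCast]
  have z2 : ∀ z : ℝ, z ^ (-4 : ℤ) = (z ^ 4)⁻¹ := fun z => by
    rw [show (-4 : ℤ) = -((4 : ℕ) : ℤ) by norm_num, zpow_neg, zpow_natCast]
  rw [z1, z2]
  generalize hq : 4 * x ^ 3 + c ^ 2 = Q at *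
  field_simp
  norm_num

theorem keyB {c x : ℝ} (hc : 0 < c) (hx : x < 0) (hQ : 0 < 4 * x ^ 3 + c ^ 2) :
    |(12 * x ^ 2 / c ^ 2)| * bt (1 / 2) (1 / 3) ((4 * x ^ 3 + c ^ 2) / c ^ 2) =
      kk c * (2 / √(4 * x ^ 3 + c ^ 2)) := by
  obtain ⟨y, hy, rfl⟩ : ∃ y : ℝ, 0 < y ∧ x = -y := ⟨-x, by linarith, by ring⟩
  have e1 : 1 - (4 * (-y) ^ 3 + c ^ 2) / c ^ 2 = 4 * y ^ 3 / c ^ 2 := by
    field_simp
    ring
  have hs : 0 < (4 * (-y) ^ 3 + c ^ 2) / c ^ 2 := by positivity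
  have hs1 : 0 < 4 * y ^ 3 / c ^ 2 := by positivity
  have hk := kk_pos hc
  have e2 : |(12 * (-y) ^ 2 / c ^ 2)| = 12 * y ^ 2 / c ^ 2 := by
    rw [neg_sq, abs_of_pos (by positivity)]
  unfold bt
  rw [e1, e2]
  refine (pow_left_inj₀ (by positivity) (by positivity) (by norm_num : (6 : ℕ) ≠ 0)).1 ?_
  rw [mul_pow, mul_pow, rp hs 6 _ (-3) (by norm_num), rp hs1 6 _ (-4) (by norm_num), mul_pow,
    kk6 hc, div_pow 2, sqrt6 hQ]
  have z1 : ∀ z : ℝ, z ^ (-3 : ℤ) = (z ^ 3)⁻¹ := fun z => by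
    rw [show (-3 : ℤ) = -((3 : ℕ) : ℤ) by norm_num, zpow_neg, zpow_natCast]
  have z2 : ∀ z : ℝ, z ^ (-4 : ℤ) = (z ^ 4)⁻¹ := fun z => by
    rw [show (-4 : ℤ) = -((4 : ℕ) : ℤ) by norm_num, zpow_neg, zpow_natCast]
  rw [z1, z2]
  generalize hq : 4 * (-y) ^ 3 + c ^ 2 = Q at *
  field_simp
  norm_num

theorem exists_cube {y : ℝ} (hy : 0 < y) : ∃ x : ℝ, 0 < x ∧ x ^ 3 = y := by
  refine ⟨y ^ (1 / 3 : ℝ), Real.rpow_pos_of_pos hy _, ?_⟩
  rw [← Real.rpow_natCast, ← Real.rpow_mul hy.le]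
  norm_num

theorem cube_inj {x y : ℝ} (h : x ^ 3 = y ^ 3) : x = y :=
  (Odd.strictMono_pow (by decide : Odd 3)).injective h

theorem derQ (c x : ℝ) : HasDerivAt (fun x : ℝ => 4 * x ^ 3 + c ^ 2) (12 * x ^ 2) x := by
  have h : HasDerivAt (fun x : ℝ => 4 * x ^ 3 + c ^ 2) (4 * (((3 : ℕ) : ℝ) * x ^ (3 - 1))) x :=
    ((hasDerivAt_pow 3 x).const_mul 4).add_const (c ^ 2)
  refine h.congr_deriv ?_
  push_cast
  ring

/-- the part `x > 0` -/
theorem partA {c : ℝ} (hc : 0 < c) :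
    IntegrableOn (fun x : ℝ => 2 / √(4 * x ^ 3 + c ^ 2)) (Ioi 0) ∧
      ∫ x in Ioi (0 : ℝ), 2 / √(4 * x ^ 3 + c ^ 2) =
        (Real.Gamma (1 / 6) * Real.Gamma (1 / 3) / Real.Gamma (1 / 6 + 1 / 3)) / kk c := by
  refine chg (f := fun x => c ^ 2 / (4 * x ^ 3 + c ^ 2))
    (f' := fun x => -(12 * c ^ 2 * x ^ 2) / (4 * x ^ 3 + c ^ 2) ^ 2) measurableSet_Ioi
    (kk_pos hc) (by norm_num) (by norm_num) ?_ ?_ ?_ ?_
  · intro x hx
    have hx0 : 0 < x := hx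
    have hQ : 0 < 4 * x ^ 3 + c ^ 2 := by positivity
    have h : HasDerivAt (fun x : ℝ => c ^ 2 / (4 * x ^ 3 + c ^ 2))
        ((0 * (4 * x ^ 3 + c ^ 2) - c ^ 2 * (12 * x ^ 2)) / (4 * x ^ 3 + c ^ 2) ^ 2) x :=
      (hasDerivAt_const x (c ^ 2)).div (derQ c x) hQ.ne'
    refine (h.congr_deriv ?_).hasDerivWithinAt
    congr 1
    ring
  · intro x hx y hy h
    have hx0 : 0 < x := hx
    have hy0 : 0 < y := hy
    have hQ : 0 < 4 * x ^ 3 + c ^ 2 := by positivity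
    have hR : 0 < 4 * y ^ 3 + c ^ 2 := by positivity
    have h1 : c ^ 2 / (4 * x ^ 3 + c ^ 2) = c ^ 2 / (4 * y ^ 3 + c ^ 2) := h
    rw [div_eq_div_iff hQ.ne' hR.ne'] at h1
    have h2 := mul_left_cancel₀ (by positivity : c ^ 2 ≠ 0) h1
    exact cube_inj (by linarith)
  · ext s
    constructor
    · rintro ⟨x, hx, rfl⟩
      have hx0 : 0 < x := hx
      have hQ : 0 < 4 * x ^ 3 + c ^ 2 := by positivity
      refine ⟨by positivity, ?_⟩
      show c ^ 2 / (4 * x ^ 3 + c ^ 2) < 1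
      rw [div_lt_one hQ]
      have : 0 < x ^ 3 := by positivity
      linarith
    · rintro ⟨h0, h1⟩
      obtain ⟨x, hx0, hx⟩ := exists_cube (y := c ^ 2 * (1 - s) / (4 * s))
        (by have : 0 < 1 - s := by linarith
            positivity)
      refine ⟨x, hx0, ?_⟩
      show c ^ 2 / (4 * x ^ 3 + c ^ 2) = s
      rw [hx]
      field_simp
      ring
  · intro x hx
    exact keyA hc hx

/-- the part `x < 0` -/
theorem partB {c a : ℝ} (hc : 0 < c) (ha : 0 < a) (hac : 4 * a ^ 3 = c ^ 2) :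
    IntegrableOn (fun x : ℝ => 2 / √(4 * x ^ 3 + c ^ 2)) (Ioo (-a) 0) ∧
      ∫ x in Ioo (-a) 0, 2 / √(4 * x ^ 3 + c ^ 2) =
        (Real.Gamma (1 / 2) * Real.Gamma (1 / 3) / Real.Gamma (1 / 2 + 1 / 3)) / kk c := by
  have hpos : ∀ x : ℝ, -a < x → 0 < 4 * x ^ 3 + c ^ 2 := by
    intro x hx
    have h1 : (-a) ^ 3 < x ^ 3 := Odd.strictMono_pow (by decide : Odd 3) hx
    have h2 : (-a) ^ 3 = -a ^ 3 := by ring
    linarith
  refine chg (f := fun x => (4 * x ^ 3 + c ^ 2) / c ^ 2)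
    (f' := fun x => 12 * x ^ 2 / c ^ 2) measurableSet_Ioo
    (kk_pos hc) (by norm_num) (by norm_num) ?_ ?_ ?_ ?_
  · intro x hx
    exact ((derQ c x).div_const (c ^ 2)).hasDerivWithinAt
  · intro x hx y hy h
    have h1 : (4 * x ^ 3 + c ^ 2) / c ^ 2 = (4 * y ^ 3 + c ^ 2) / c ^ 2 := h
    have h2 := (div_left_inj' (by positivity : c ^ 2 ≠ 0)).1 h1
    exact cube_inj (by linarith)
  · ext s
    constructor
    · rintro ⟨x, hx, rfl⟩
      have hQ := hpos x hx.1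
      refine ⟨by positivity, ?_⟩
      show (4 * x ^ 3 + c ^ 2) / c ^ 2 < 1
      rw [div_lt_one (by positivity)]
      have : x ^ 3 < 0 := Odd.pow_neg (by decide) hx.2
      linarith
    · rintro ⟨h0, h1⟩
      have h1s : 0 < 1 - s := by linarith
      obtain ⟨x, hx0, hx⟩ := exists_cube (y := c ^ 2 * (1 - s) / 4) (by positivity)
      have h3 : x ^ 3 < a ^ 3 := by
        have : 0 < c ^ 2 * s := by positivity
        rw [hx]
        linarith
      have h4 : x < a := lt_of_pow_lt_pow_left₀ 3 ha.le h3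
      refine ⟨-x, ⟨by linarith, by linarith⟩, ?_⟩
      show (4 * (-x) ^ 3 + c ^ 2) / c ^ 2 = s
      have h5 : (-x) ^ 3 = -x ^ 3 := by ring
      rw [h5, hx]
      field_simp
      ring
  · intro x hx
    exact keyB hc hx.2 (hpos x hx.1)

theorem gam {c : ℝ} (hc : 0 < c) :
    (Real.Gamma (1 / 2) * Real.Gamma (1 / 3) / Real.Gamma (1 / 2 + 1 / 3)) / kk c +
      (Real.Gamma (1 / 6) * Real.Gamma (1 / 3) / Real.Gamma (1 / 6 + 1 / 3)) / kk c =
      √3 * (Real.Gamma (1 / 3) ^ 3 / (2 * Real.pi)) / c ^ (1 / 3 : ℝ) := by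
  have h3 : Real.Gamma (1 / 3) * Real.Gamma (2 / 3) * √3 = 2 * Real.pi := by
    have h4 := Real.Gamma_mul_Gamma_one_sub (1 / 3)
    have e1 : (1 : ℝ) - 1 / 3 = 2 / 3 := by norm_num
    have e2 : Real.pi * (1 / 3) = Real.pi / 3 := by ring
    rw [e1, e2, Real.sin_pi_div_three] at h4
    rw [h4]
    have h5 : 0 < √3 := Real.sqrt_pos.2 (by norm_num)
    field_simp
  have h6 : Real.Gamma (1 / 6) * Real.Gamma (5 / 6) = 2 * Real.pi := by
    have h4 := Real.Gamma_mul_Gamma_one_sub (1 / 6)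
    have e1 : (1 : ℝ) - 1 / 6 = 5 / 6 := by norm_num
    have e2 : Real.pi * (1 / 6) = Real.pi / 6 := by ring
    rw [e1, e2, Real.sin_pi_div_six] at h4
    rw [h4]
    ring
  have h4 : Real.Gamma (1 / 6) * Real.Gamma (2 / 3) =
      Real.Gamma (1 / 3) * 2 ^ (2 / 3 : ℝ) * √Real.pi := by
    have h5 := Real.Gamma_mul_Gamma_add_half (1 / 6)
    have e1 : (1 / 6 : ℝ) + 1 / 2 = 2 / 3 := by norm_num
    have e2 : 2 * (1 / 6 : ℝ) = 1 / 3 := by norm_num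
    have e3 : (1 : ℝ) - 1 / 3 = 2 / 3 := by norm_num
    rw [e1, e2, e3] at h5
    exact h5
  have e1 : (1 / 2 : ℝ) + 1 / 3 = 5 / 6 := by norm_num
  have e2 : (1 / 6 : ℝ) + 1 / 3 = 1 / 2 := by norm_num
  rw [e1, e2, Real.Gamma_one_half_eq]
  unfold kk
  have hG : 0 < Real.Gamma (1 / 3) := Real.Gamma_pos_of_pos (by norm_num)
  have hH : 0 < Real.Gamma (2 / 3) := Real.Gamma_pos_of_pos (by norm_num)
  have hK : 0 < Real.Gamma (1 / 6) := Real.Gamma_pos_of_pos (by norm_num)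
  have hL : 0 < Real.Gamma (5 / 6) := Real.Gamma_pos_of_pos (by norm_num)
  have hpi := Real.pi_pos
  have hsp : √Real.pi * √Real.pi = Real.pi := Real.mul_self_sqrt hpi.le
  have hsp' : 0 < √Real.pi := Real.sqrt_pos.2 hpi
  have hs3 : 0 < √3 := Real.sqrt_pos.2 (by norm_num)
  have hc4 : (4 : ℝ) ^ (2 / 3 : ℝ) = (2 ^ (2 / 3 : ℝ)) ^ 2 := by
    rw [← Real.rpow_natCast, ← Real.rpow_mul (by norm_num),
      show (4 : ℝ) = 2 ^ (2 : ℝ) by norm_num, ← Real.rpow_mul (by norm_num)]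
    norm_num
  have hc3 : ((2 : ℝ) ^ (2 / 3 : ℝ)) ^ 3 = 4 := by
    rw [← Real.rpow_natCast, ← Real.rpow_mul (by norm_num)]
    norm_num
  rw [hc4]
  have hb0 : 0 < (2 : ℝ) ^ (2 / 3 : ℝ) := by positivity
  have hr0 : 0 < c ^ (1 / 3 : ℝ) := by positivity
  generalize (2 : ℝ) ^ (2 / 3 : ℝ) = b at *
  generalize c ^ (1 / 3 : ℝ) = r at *
  generalize Real.Gamma (1 / 3) = G at *
  generalize Real.Gamma (2 / 3) = H at *
  generalize Real.Gamma (1 / 6) = K at *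
  generalize Real.Gamma (5 / 6) = L at *
  generalize √Real.pi = p at *
  generalize Real.pi = q at *
  generalize √3 = t at *
  -- `L = 2 q / K`, `H = 2 q / (G t)`, `K = G b p / H = G² b p t / (2 q)`
  have i1 : L⁻¹ = K / (2 * q) := by
    rw [← h6]
    field_simp
  have i2 : K = G ^ 2 * b * p * t / (2 * q) := by
    have : K * (2 * q) = G ^ 2 * b * p * t := by
      rw [← h3]
      linear_combination (G * t) * h4
    rw [eq_div_iff (by positivity), this]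
  have i3 : p * G / L = p * G * K / (2 * q) := by
    rw [div_eq_mul_inv, i1]
    ring
  rw [i3, i2]
  subst hsp
  field_simp
  linear_combination 3 * hc3

/-- **Task CT-PER.** -/
theorem per : Pool.Agent.Y703.CT.S_PER := by
  intro D hD
  have hc : 0 < (D : ℝ) := by exact_mod_cast hD
  set c : ℝ := (D : ℝ) with hcdef
  obtain ⟨a, ha, hac⟩ := exists_cube (y := c ^ 2 / 4) (by positivity)
  have hac' : 4 * a ^ 3 = c ^ 2 := by rw [hac]; ring
  have hpsi : ∀ x : ℝ, Pool.Agent.Y700.psi (Pool.Agent.Y703.CT.WD D) x = 4 * x ^ 3 + c ^ 2 := by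
    intro x
    unfold Pool.Agent.Y700.psi Pool.Agent.Y703.CT.WD WeierstrassCurve.b₂ WeierstrassCurve.b₄
      WeierstrassCurve.b₆
    push_cast
    ring
  have hset : {x : ℝ | 0 < Pool.Agent.Y700.psi (Pool.Agent.Y703.CT.WD D) x} = Ioi (-a) := by
    ext x
    rw [mem_ofPred_eq, hpsi, mem_Ioi]
    have h2 : (-a) ^ 3 = -a ^ 3 := by ring
    rw [← (Odd.strictMono_pow (by decide : Odd 3)).lt_iff_lt (a := -a) (b := x), h2]
    constructor <;> intro h <;> linarith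
  unfold Pool.Agent.Y700.Omega
  rw [hset]
  simp only [hpsi]
  have hun : Ioi (-a) = Ioc (-a) 0 ∪ Ioi 0 := (Ioc_union_Ioi_eq_Ioi (by linarith)).symm
  obtain ⟨hA1, hA2⟩ := partA hc
  obtain ⟨hB1, hB2⟩ := partB hc ha hac'
  have hB3 : IntegrableOn (fun x : ℝ => 2 / √(4 * x ^ 3 + c ^ 2)) (Ioc (-a) 0) :=
    (integrableOn_Ioc_iff_integrableOn_Ioo).2 hB1
  rw [hun, setIntegral_union (Ioc_disjoint_Ioi le_rfl) measurableSet_Ioi hB3 hA1,
    integral_Ioc_eq_integral_Ioo, hA2, hB2, gam hc]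

end Pool.Agent.Y333.CT
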